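import Mathlib
import Pool.Prelude.Def_F_8db9d53c

/-!
# Graphs without short cycles have a large cop number (Aigner and Fromme)
-/

set_option autoImplicit false

open N6ef48c04

namespace Pool.Agent.Q291.Cops

variable {V : Type*}

/-- no cop is on the vertex of the robber or next to it -/
def Safe (G : SimpleGraph V) {k : ℕ} (c : Fin k → V) (r : V) : Prop :=
  ∀ i, ¬ Step G (c i) r

/-- If `r` has more neighbours than there are cops, no cop is at `r`, there are no triangles and no
4-cycles, then `r` has a safe neighbour. -/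
lemma exists_safe (G : SimpleGraph V) (h3 : ∀ x y z, G.Adj x y → G.Adj y z → ¬ G.Adj x z)
    (h4 : ∀ x z, x ≠ z → ∀ y w, G.Adj x y → G.Adj y z → G.Adj x w → G.Adj w z → y = w)
    {k : ℕ} (c : Fin k → V) (r : V) (hr : ∀ i, c i ≠ r) (s : Finset V) (hs : k < s.card)
    (hadj : ∀ y ∈ s, G.Adj r y) : ∃ y ∈ s, Safe G c y := by
  classical
  by_contra hne
  have h1 : ∀ y : s, ∃ i, Step G (c i) y.1 := by
    intro y
    by_contra h
    push Not at h
    exact hne ⟨y.1, y.2, h⟩
  choose f hf using h1
  have hinj : Function.Injective f := by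
    intro y w hyw
    apply Subtype.ext
    have hy := hf y
    have hw := hf w
    rw [← hyw] at hw
    have ay := hadj y.1 y.2
    have aw := hadj w.1 w.2
    have hcr := hr (f y)
    rcases hy with hy | hy
    · rcases hw with hw | hw
      · exact hy.symm.trans hw
      · exfalso
        rw [hy] at hw
        exact h3 r y.1 w.1 ay hw aw
    · rcases hw with hw | hw
      · exfalso
        rw [hw] at hy
        exact h3 r w.1 y.1 aw hy ay
      · exact h4 (c (f y)) r hcr y.1 w.1 hy ay.symm hw aw.symm
  have := Fintype.card_le_of_injective f hinj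
  simp at this
  omega

/-- Aigner and Fromme: if there are no triangles, no 4-cycles and every vertex has at least `d`
neighbours, then fewer than `d` cops do not win. -/
theorem not_copsWin (G : SimpleGraph V) [Nonempty V]
    (h3 : ∀ x y z, G.Adj x y → G.Adj y z → ¬ G.Adj x z)
    (h4 : ∀ x z, x ≠ z → ∀ y w, G.Adj x y → G.Adj y z → G.Adj x w → G.Adj w z → y = w)
    (d : ℕ) (hd : ∀ v, ∃ s : Finset V, d ≤ s.card ∧ ∀ y ∈ s, G.Adj v y)
    (k : ℕ) (hk : k < d) : ¬ CopsWin G k := by
  classical
  rintro ⟨c, hc⟩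
  have key : ∀ (m : ℕ) (c : Fin k → V) (r : V), Safe G c r → ¬ CopsCatchWithin G k m c r := by
    intro m
    induction m with
    | zero =>
      rintro c r hs ⟨i, hi⟩
      exact hs i (Or.inl hi)
    | succ m ih =>
      rintro c r hs h
      rcases h with ⟨i, hi⟩ | ⟨c', hc', h⟩
      · exact hs i (Or.inl hi)
      have hne : ∀ i, c' i ≠ r := by
        intro i hi
        have := hc' i
        rw [hi] at this
        exact hs i this
      rcases h with ⟨i, hi⟩ | h
      · exact hne i hi
      · obtain ⟨s, hs1, hs2⟩ := hd r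
        obtain ⟨y, hy1, hy2⟩ := exists_safe G h3 h4 c' r hne s (by omega) hs2
        exact ih c' y hy2 (h y (Or.inr (hs2 y hy1)))
  -- a starting vertex of the robber
  obtain ⟨v⟩ := (inferInstance : Nonempty V)
  obtain ⟨s, hs1, hs2⟩ := hd v
  obtain ⟨r0, hr0⟩ : ∃ r0 : V, ∀ i, c i ≠ r0 := by
    by_contra hne
    push Not at hne
    choose f hf using hne
    have hinj : Function.Injective (fun y : s => f y.1) := by
      intro y w hyw
      apply Subtype.ext
      have h1 := hf y.1
      have h2 := hf w.1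
      have hyw' : f y.1 = f w.1 := hyw
      rw [hyw'] at h1
      exact h1.symm.trans h2
    have := Fintype.card_le_of_injective _ hinj
    simp at this
    omega
  obtain ⟨t, ht1, ht2⟩ := hd r0
  obtain ⟨y, -, hy2⟩ := exists_safe G h3 h4 c r0 hr0 t (by omega) ht2
  obtain ⟨m, hm⟩ := hc y
  exact key m c y hy2 hm

/-- Cops on all vertices win. -/
lemma copsWin_card [Fintype V] (G : SimpleGraph V) : CopsWin G (Fintype.card V) := by
  refine ⟨(Fintype.equivFin V).symm, fun r => ⟨0, (Fintype.equivFin V) r, ?_⟩⟩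
  simp

theorem le_copNumber [Fintype V] [Nonempty V] (G : SimpleGraph V)
    (h3 : ∀ x y z, G.Adj x y → G.Adj y z → ¬ G.Adj x z)
    (h4 : ∀ x z, x ≠ z → ∀ y w, G.Adj x y → G.Adj y z → G.Adj x w → G.Adj w z → y = w)
    (d : ℕ) (hd : ∀ v, ∃ s : Finset V, d ≤ s.card ∧ ∀ y ∈ s, G.Adj v y) :
    d ≤ copNumber G := by
  have hmem : copNumber G ∈ {k | CopsWin G k} := Nat.sInf_mem ⟨_, copsWin_card G⟩
  by_contra hlt
  exact not_copsWin G h3 h4 d hd _ (by omega) hmem

end Pool.Agent.Q291.Cops
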